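import Mathlib
import Pool.Agent.Lib_MP_644907.Final

set_option autoImplicit false

namespace Pool.Agent.LibMP644907old.SchottkyDrop

/-- Dimension drop for finitely supported random walks on isometry groups of the hyperbolic disk which contain a
Fuchsian Schottky group of rank `N ≥ 2` with finite index. The steps are `g i` with probabilities `p i`, `S` is the
semigroup generated by the `g i`, which is a group on the closed disk. The maps `h a` belong to `S`, `h (i, false)` is the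
inverse of `h (i, true)`, and `h a` maps the complement in the circle of the arc of the inverse letter into the arc `A a`;
the `2 N` arcs are closed, connected and pairwise disjoint. Every element of `S` is a word in the `h a` composed with one
of finitely many elements of `S`. Then every stationary probability measure on the circle gives full mass to a Borel set
whose Hausdorff dimension is smaller than that of the limit set. -/
theorem result :
    ∀ (n : ℕ) (p : Fin n → ℝ) (g : Fin n → ℂ → ℂ),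
    (∀ i, 0 < p i) → ∑ i, p i = 1 →
    (∀ i, ∃ u a : ℂ, ‖u‖ = 1 ∧ ‖a‖ < 1 ∧
      (g i = (fun z : ℂ => u * (z - a) / (1 - starRingEnd ℂ a * z)) ∨
       g i = (fun z : ℂ => u * (starRingEnd ℂ z - a) / (1 - starRingEnd ℂ a * starRingEnd ℂ z)))) →
    ∀ S : Set (ℂ → ℂ),
      S = ⋂₀ {T : Set (ℂ → ℂ) | Set.range g ⊆ T ∧ ∀ f ∈ T, ∀ h ∈ T, f ∘ h ∈ T} →
      (∀ f ∈ S, ∃ h ∈ S, ∀ z : ℂ, ‖z‖ ≤ 1 → h (f z) = z) →
      ∀ (N : ℕ) (h : Fin N × Bool → ℂ → ℂ) (A : Fin N × Bool → Set ℂ), 2 ≤ N →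
      (∀ a, h a ∈ S) →
      (∀ a z, ‖z‖ ≤ 1 → h (a.1, !a.2) (h a z) = z) →
      (∀ a, IsClosed (A a)) → (∀ a, IsPreconnected (A a)) → (∀ a, A a ⊆ Metric.sphere (0:ℂ) 1) →
      (∀ a b, a ≠ b → Disjoint (A a) (A b)) →
      (∀ a z, ‖z‖ = 1 → z ∉ A (a.1, !a.2) → h a z ∈ A a) →
      (∃ C : Set (ℂ → ℂ), C.Finite ∧ C ⊆ S ∧ ∀ f ∈ S, ∃ c ∈ C, ∃ w : List (Fin N × Bool),
        ∀ z : ℂ, ‖z‖ ≤ 1 → f z = (w.map h).foldr (fun f g => f ∘ g) id (c z)) →
      ∀ ν : MeasureTheory.Measure ℂ, MeasureTheory.IsProbabilityMeasure ν →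
        ν (Metric.sphere (0:ℂ) 1)ᶜ = 0 →
        (∀ A : Set ℂ, MeasurableSet A →
          ν A = ∑ i, ENNReal.ofReal (p i) * ν (g i ⁻¹' A)) →
        ∃ E : Set ℂ, MeasurableSet E ∧ ν Eᶜ = 0 ∧
          dimH E < dimH (closure ((fun f : ℂ → ℂ => f 0) '' S) ∩ Metric.sphere (0:ℂ) 1) :=
  Pool.Agent.DimDrop.main

end Pool.Agent.LibMP644907old.SchottkyDrop
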